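import Mathlib
import Pool.Agent.Run7.h469.CycQ
import Pool.Agent.Run7.h469.Topo
import Pool.Agent.Run7.h469.Dom

/-!
# Self-coverings whose iterated image is the kernel of a character

Let `M` be a homotopy retract of a compact, locally nice space (for instance a closed manifold, or
a finitely dominated space), let `q : M' → M` be a covering with finite fibres and `h : M → M'` a
homotopy equivalence that preserves the base points.

(1) Let `P` be a subgroup of finite index of `π₁(M)` such that `G(h) ∩ P` is the kernel of a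
surjective homomorphism `P → ℤ`. Then `G(h) ∩ P` contains a finitely generated subgroup `G₀` that
has the same fixed vectors as `G(h) ∩ P` in every finite-dimensional representation of `P` over
every field, and the same image as `G(h) ∩ P` in every finite quotient of `P`. If every finitely
generated subgroup of `π₁(M)` is separable, then `G(h)` is finitely generated.

(2) More generally, let `R` be a virtually polycyclic normal subgroup of `π₁(M)` with
`h_#⁻¹(R) = R`, and let `φ` be the endomorphism of `π₁(M)/R` induced by `h_#`. If every finitely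
generated subgroup of `π₁(M)/R` is separable and the intersection of the iterated image of `φ` with
some subgroup `N` of finite index is the kernel of a surjective homomorphism `N → ℤ`, then `G(h)`
is finitely generated.
-/

set_option autoImplicit false

namespace Pool.Agent.Results.MP_52ecc8_gt.CyclicQuotient

open Topology Function

/-- A group is virtually polycyclic if it has a subgroup of finite index that is polycyclic, that
is, solvable with all its subgroups finitely generated. -/
def IsVirtuallyPolycyclic (G : Type) [Group G] : Prop :=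
  ∃ H : Subgroup G, H.FiniteIndex ∧ Group.IsSolvable H ∧ ∀ K : Subgroup H, K.FG

/-- Every finitely generated subgroup is an intersection of subgroups of finite index. -/
def IsLERF (G : Type) [Group G] : Prop :=
  ∀ H : Subgroup G, H.FG → ∀ g : G, g ∉ H → ∃ L : Subgroup G, L.FiniteIndex ∧ H ≤ L ∧ g ∉ L

/-- A compact Hausdorff, path-connected, locally path-connected and semilocally simply connected
space, for instance a closed connected manifold or a finite connected CW complex. -/
structure IsCompactModel (K : Type) [TopologicalSpace K] : Prop where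
  compact : CompactSpace K
  t2 : T2Space K
  pathConnected : PathConnectedSpace K
  locallyPathConnected : LocallyPathConnectedSpace K
  semilocallySimplyConnected : ∀ x : K, ∃ U ∈ 𝓝 x, ∀ p : Path x x,
    Set.range p ⊆ U → p.Homotopic (Path.refl x)

/-- `M` is a homotopy retract of a compact model. -/
def IsCompactlyDominated (M : Type) [TopologicalSpace M] : Prop :=
  ∃ (K : Type) (_ : TopologicalSpace K), IsCompactModel K ∧
    ∃ (i : C(M, K)) (r : C(K, M)), (r.comp i).Homotopic (ContinuousMap.id M)

/-- The iterated image `⋂_{k ≥ 1} im φ^k` of an endomorphism of a group. -/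
def iteratedImage {G : Type} [Group G] (φ : Monoid.End G) : Subgroup G :=
  ⨅ k : ℕ, MonoidHom.range (φ ^ (k + 1))

/-- The endomorphism `h_# = (q ∘ h)_#` of the fundamental group. -/
noncomputable def hSharp {M M' : Type} [TopologicalSpace M] [TopologicalSpace M'] (q : C(M', M))
    (h : C(M, M')) {x : M} (hx : q (h x) = x) : Monoid.End (FundamentalGroup M x) :=
  FundamentalGroup.mapOfEq (q.comp h) hx

theorem iteratedImage_eq {G : Type} [Group G] (φ : Monoid.End G) :
    iteratedImage φ = Run7.h469.itImg (φ : G →* G) := by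
  have hk : ∀ (k : ℕ) (y : G), (φ ^ k : Monoid.End G) y = (⇑φ)^[k] y := by
    intro k
    induction k with
    | zero => intro y; rfl
    | succ k ih =>
      intro y
      rw [pow_succ, Function.iterate_succ_apply, ← ih]
      rfl
  ext x
  rw [iteratedImage, Subgroup.mem_iInf, Run7.h469.mem_itImg]
  constructor
  · intro h k
    cases k with
    | zero => exact ⟨x, rfl⟩
    | succ k =>
      obtain ⟨y, hy⟩ := h k
      exact ⟨y, (hk (k + 1) y).symm.trans hy⟩
  · intro h k
    obtain ⟨y, hy⟩ := h (k + 1)
    exact ⟨y, (hk (k + 1) y).trans hy⟩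

theorem vp_of {G : Type} [Group G] (h : IsVirtuallyPolycyclic G) : Run7.h469.VP G := by
  obtain ⟨H, hH, hs, hm⟩ := h
  have h1 : Run7.h469.VP H :=
    ⟨hm, ⊤, by rw [Subgroup.index_top]; exact one_ne_zero, inferInstance⟩
  exact Run7.h469.VP.of_finiteIndex (K := H.normalCore) Subgroup.FiniteIndex.index_ne_zero
    (Run7.h469.VP.of_le (Subgroup.normalCore_le H) h1) inferInstance

theorem pi1_fp {M : Type} [TopologicalSpace M] (hM : IsCompactlyDominated M) (x : M) :
    Group.IsFinitelyPresented (FundamentalGroup M x) := by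
  obtain ⟨K, tK, hK, i, r, h⟩ := hM
  have := hK.compact
  have := hK.t2
  have := hK.pathConnected
  have := hK.locallyPathConnected
  exact Run7.h469.Pi1.fp_of_dominated i r h x
    (Run7.h469.Pi1.fp_pi1 hK.semilocallySimplyConnected (i x))

theorem fg_map {G H : Type} [Group G] [Group H] {K : Subgroup G} (f : G →* H) (h : K.FG) :
    (K.map f).FG := by
  obtain ⟨S, hS, hSf⟩ := (Subgroup.fg_iff K).1 h
  exact (Subgroup.fg_iff _).2 ⟨f '' S, by rw [← MonoidHom.map_closure, hS], hSf.image f⟩

/-- the algebraic statement -/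
theorem main {G : Type} [Group G] (hG : Group.IsFinitelyPresented G) (φ : Monoid.End G)
    (hφ : Injective φ) (hfi : (MonoidHom.range φ).index ≠ 0) (P : Subgroup G) [P.FiniteIndex]
    (χ : P →* Multiplicative ℤ) (hχ : Surjective χ)
    (hker : (iteratedImage φ).subgroupOf P = χ.ker) :
    ∃ G₀ : Subgroup P, G₀.FG ∧ G₀ ≤ χ.ker ∧
      (∀ (F V : Type) [Field F] [AddCommGroup V] [Module F V] [FiniteDimensional F V]
        (ρ : Representation F P V) (v : V), (∀ g ∈ G₀, ρ g v = v) → ∀ g ∈ χ.ker, ρ g v = v) ∧
      (∀ (E : Type) [Group E] [Finite E] (f : P →* E), G₀.map f = χ.ker.map f) ∧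
      (IsLERF G → Group.FG (iteratedImage φ)) := by
  rw [iteratedImage_eq] at hker ⊢
  have hPfp : Group.IsFinitelyPresented P := Pool.Agent.V11238.MG.fp_of_finiteIndex P
  have hGfg : Group.FG G := Run7.h469.fg_of_fp' hG
  have hPi : P.index ≠ 0 := Subgroup.FiniteIndex.index_ne_zero
  obtain ⟨G₀, h1, h2, h3⟩ := Run7.h469.Win.core.{0, 0} hPfp hχ
  have hrep : ∀ (F V : Type) [Field F] [AddCommGroup V] [Module F V] [FiniteDimensional F V]
      (ρ : Representation F P V) (v : V), (∀ g ∈ G₀, ρ g v = v) → ∀ g ∈ χ.ker, ρ g v = v :=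
    fun F V _ _ _ _ ρ v hv =>
      h3 F _ (Run7.h469.Win.rankCond F hφ hfi P hPi hχ hker) V ρ v hv
  have himg : ∀ (E : Type) [Group E] [Finite E] (f : P →* E), G₀.map f = χ.ker.map f :=
    fun E _ _ f => Run7.h469.Win.finite_image h2 (fun V _ _ _ ρ v hv => hrep ℚ V ρ v hv) f
  refine ⟨G₀, h1, h2, hrep, himg, fun hL => ?_⟩
  have heq : G₀ = χ.ker := by
    refine Run7.h469.Win.eq_of_separable h2 ?_ (hL _ (fg_map P.subtype h1))
    intro L hLn hLi g hg
    have : L.FiniteIndex := ⟨hLi⟩
    have : Finite (P ⧸ L) := inferInstance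
    have h4 := himg (P ⧸ L) (QuotientGroup.mk' L)
    have h5 : QuotientGroup.mk' L g ∈ G₀.map (QuotientGroup.mk' L) := by
      rw [h4]; exact ⟨g, hg, rfl⟩
    obtain ⟨g', hg', h6⟩ := h5
    have h7 : g'⁻¹ * g ∈ L := by
      rw [QuotientGroup.mk'_apply, QuotientGroup.mk'_apply] at h6
      exact QuotientGroup.eq.1 h6
    have h8 : g = g' * (g'⁻¹ * g) := by group
    rw [h8]
    exact mul_mem (Subgroup.mem_sup_left hg') (Subgroup.mem_sup_right h7)
  have h9 : (Run7.h469.itImg (φ : G →* G) ⊓ P).FG := by
    have h10 : (χ.ker.map P.subtype).FG := by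
      rw [← heq]; exact fg_map P.subtype h1
    rw [← hker, Subgroup.subgroupOf_map_subtype] at h10
    exact h10
  have h11 : (Run7.h469.itImg (φ : G →* G)).FG := by
    refine Run7.h469.Win.fg_of_sub inf_le_left ?_ h9
    rw [Subgroup.inf_relIndex_left]
    exact mt Subgroup.index_eq_zero_of_relIndex_eq_zero hPi
  exact (Group.fg_iff_subgroup_fg _).2 h11

/-- Iterated images of self-coverings that are kernels of characters. -/
theorem result (M M' : Type) [TopologicalSpace M] [TopologicalSpace M']
    (hM : IsCompactlyDominated M) (q : C(M', M)) (hq : IsCoveringMap q)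
    (h : ContinuousMap.HomotopyEquiv M M') (x : M) (hx : q (h x) = x)
    (hfin : (q ⁻¹' {x}).Finite) :
    -- (1)
    (∀ (P : Subgroup (FundamentalGroup M x)) (_ : P.FiniteIndex) (χ : P →* Multiplicative ℤ),
      Surjective χ → (iteratedImage (hSharp q h.toFun hx)).subgroupOf P = χ.ker →
      ∃ G₀ : Subgroup P, G₀.FG ∧ G₀ ≤ χ.ker ∧
        (∀ (F V : Type) [Field F] [AddCommGroup V] [Module F V] [FiniteDimensional F V]
          (ρ : Representation F P V) (v : V), (∀ g ∈ G₀, ρ g v = v) →
          ∀ g ∈ χ.ker, ρ g v = v) ∧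
        (∀ (E : Type) [Group E] [Finite E] (f : P →* E), G₀.map f = χ.ker.map f) ∧
        (IsLERF (FundamentalGroup M x) → Group.FG (iteratedImage (hSharp q h.toFun hx)))) ∧
    -- (2)
    (∀ (R : Subgroup (FundamentalGroup M x)) (_ : R.Normal), IsVirtuallyPolycyclic R →
      (∀ g, hSharp q h.toFun hx g ∈ R ↔ g ∈ R) →
      ∀ φ : Monoid.End (FundamentalGroup M x ⧸ R),
      (∀ g, φ (QuotientGroup.mk' R g) = QuotientGroup.mk' R (hSharp q h.toFun hx g)) →
      ∀ (N : Subgroup (FundamentalGroup M x ⧸ R)) (_ : N.FiniteIndex)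
        (χ : N →* Multiplicative ℤ), Surjective χ → (iteratedImage φ).subgroupOf N = χ.ker →
      IsLERF (FundamentalGroup M x ⧸ R) →
      Group.FG (iteratedImage (hSharp q h.toFun hx))) := by
  have hinj : Injective (hSharp q h.toFun hx) := Run7.h469.hSharp_injective q hq h hx
  have hfi : (MonoidHom.range (hSharp q h.toFun hx)).index ≠ 0 :=
    Run7.h469.hSharp_range q hq h hx hfin
  have hfp := pi1_fp hM x
  constructor
  · intro P hP χ hχ hker
    exact main hfp _ hinj hfi P χ hχ hker
  · intro R hRn hR hRc φ hφ N hN χ hχ hker hL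
    have hRvp : Run7.h469.VP R := vp_of hR
    have hkerVP : Run7.h469.VP (QuotientGroup.mk' R).ker := by
      rw [QuotientGroup.ker_mk']; exact hRvp
    have hφ' : (φ : (FundamentalGroup M x ⧸ R) →* (FundamentalGroup M x ⧸ R)) =
        Run7.h469.quo (hSharp q h.toFun hx) R hRc := by
      refine MonoidHom.ext fun z => ?_
      obtain ⟨g, rfl⟩ := QuotientGroup.mk'_surjective R z
      exact hφ g
    have hqi : Injective φ := by
      have := Run7.h469.quo_inj (φ := (hSharp q h.toFun hx : FundamentalGroup M x →* _)) hRc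
      rw [← hφ'] at this
      exact this
    have hqr : (MonoidHom.range φ).index ≠ 0 := by
      have := Run7.h469.quo_range (φ := (hSharp q h.toFun hx : FundamentalGroup M x →* _)) hRc hfi
      rw [← hφ'] at this
      exact this
    have hQfp : Group.IsFinitelyPresented (FundamentalGroup M x ⧸ R) :=
      Run7.h469.fp_quotient hfp R (Pool.Agent.Helper611.PcGrp.MaxC.fg hRvp.1)
    obtain ⟨G₀, -, -, -, -, h5⟩ := main hQfp φ hqi hqr N χ hχ hker
    have h6 := h5 hL
    rw [iteratedImage_eq] at h6 ⊢
    exact Run7.h469.itImg_fg _ (QuotientGroup.mk'_surjective R) (fun g => (hφ g).symm) hinj hfi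
      hqi hkerVP h6

end Pool.Agent.Results.MP_52ecc8_gt.CyclicQuotient
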