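import Mathlib
import Pool.Agent.Run7.h469.FPmain
import Pool.Agent.Run7.h469.Topo
import Pool.Agent.Run7.h469.Dom

/-!
# Iterated images of self-coverings and the virtually polycyclic radical

Let `M` be a homotopy retract of a compact, locally nice space (for instance a closed manifold, or
a finitely dominated space), let `q : M' → M` be a covering with finite fibres and `h : M → M'` a
homotopy equivalence that preserves the base points, and let `h_#` be the induced injective
endomorphism of `π₁(M)`. Let `R` be the largest virtually polycyclic normal subgroup of `π₁(M)`.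
Then `h_#` induces an injective endomorphism `φ` of `π₁(M)/R` with an image of finite index, and

* if the iterated image of `φ` is finitely generated, then so is the iterated image `G(h)` of
  `h_#`, and it maps onto a subgroup of finite index of the iterated image of `φ`;
* if the iterated image of `φ` is finitely presented, then so is `G(h)`;
* if `π₁(M)/R` is not isomorphic to a proper subgroup of finite index of itself, then `G(h)` is
  finitely presented.
-/

set_option autoImplicit false

namespace Pool.Agent.Results.MP_52ecc8_gt.PolycyclicRadical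

open Topology Function

/-- A group is virtually polycyclic if it has a subgroup of finite index that is polycyclic, that
is, solvable with all its subgroups finitely generated. -/
def IsVirtuallyPolycyclic (G : Type) [Group G] : Prop :=
  ∃ H : Subgroup G, H.FiniteIndex ∧ Group.IsSolvable H ∧ ∀ K : Subgroup H, K.FG

/-- A compact Hausdorff, path-connected, locally path-connected and semilocally simply connected
space, for instance a closed connected manifold or a finite connected CW complex. -/
structure IsCompactModel (K : Type) [TopologicalSpace K] : Prop where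
  compact : CompactSpace K
  t2 : T2Space K
  pathConnected : PathConnectedSpace K
  locallyPathConnected : LocallyPathConnectedSpace K
  semilocallySimplyConnected : ∀ x : K, ∃ U ∈ 𝓝 x, ∀ p : Path x x,
    Set.range p ⊆ U → p.Homotopic (Path.refl x)

/-- `M` is a homotopy retract of a compact model. -/
def IsCompactlyDominated (M : Type) [TopologicalSpace M] : Prop :=
  ∃ (K : Type) (_ : TopologicalSpace K), IsCompactModel K ∧
    ∃ (i : C(M, K)) (r : C(K, M)), (r.comp i).Homotopic (ContinuousMap.id M)

/-- The iterated image `⋂_{k ≥ 1} im φ^k` of an endomorphism of a group. -/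
def iteratedImage {G : Type} [Group G] (φ : Monoid.End G) : Subgroup G :=
  ⨅ k : ℕ, MonoidHom.range (φ ^ (k + 1))

/-- The endomorphism `h_# = (q ∘ h)_#` of the fundamental group. -/
noncomputable def hSharp {M M' : Type} [TopologicalSpace M] [TopologicalSpace M'] (q : C(M', M))
    (h : C(M, M')) {x : M} (hx : q (h x) = x) : Monoid.End (FundamentalGroup M x) :=
  FundamentalGroup.mapOfEq (q.comp h) hx

theorem iteratedImage_eq {G : Type} [Group G] (φ : Monoid.End G) :
    iteratedImage φ = Run7.h469.itImg (φ : G →* G) := by
  have hk : ∀ (k : ℕ) (y : G), (φ ^ k : Monoid.End G) y = (⇑φ)^[k] y := by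
    intro k
    induction k with
    | zero => intro y; rfl
    | succ k ih =>
      intro y
      rw [pow_succ, Function.iterate_succ_apply, ← ih]
      rfl
  ext x
  rw [iteratedImage, Subgroup.mem_iInf, Run7.h469.mem_itImg]
  constructor
  · intro h k
    cases k with
    | zero => exact ⟨x, rfl⟩
    | succ k =>
      obtain ⟨y, hy⟩ := h k
      exact ⟨y, (hk (k + 1) y).symm.trans hy⟩
  · intro h k
    obtain ⟨y, hy⟩ := h (k + 1)
    exact ⟨y, (hk (k + 1) y).trans hy⟩

theorem vp_iff {G : Type} [Group G] : IsVirtuallyPolycyclic G ↔ Run7.h469.VP G := by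
  constructor
  · rintro ⟨H, hH, hs, hm⟩
    have h1 : Run7.h469.VP H :=
      ⟨hm, ⊤, by rw [Subgroup.index_top]; exact one_ne_zero, inferInstance⟩
    exact Run7.h469.VP.of_finiteIndex (K := H.normalCore) Subgroup.FiniteIndex.index_ne_zero
      (Run7.h469.VP.of_le (Subgroup.normalCore_le H) h1) inferInstance
  · rintro ⟨hm, S, hS, hs⟩
    exact ⟨S, ⟨hS⟩, hs, Pool.Agent.Helper611.PcGrp.MaxC.of_injective hm S.subtype
      S.subtype_injective⟩

theorem pi1_fp {M : Type} [TopologicalSpace M] (hM : IsCompactlyDominated M) (x : M) :
    Group.IsFinitelyPresented (FundamentalGroup M x) := by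
  obtain ⟨K, tK, hK, i, r, h⟩ := hM
  have := hK.compact
  have := hK.t2
  have := hK.pathConnected
  have := hK.locallyPathConnected
  exact Run7.h469.Pi1.fp_of_dominated i r h x
    (Run7.h469.Pi1.fp_pi1 hK.semilocallySimplyConnected (i x))

/-- The virtually polycyclic radical and iterated images of self-coverings. -/
theorem result (M M' : Type) [TopologicalSpace M] [TopologicalSpace M']
    (hM : IsCompactlyDominated M) (q : C(M', M)) (hq : IsCoveringMap q)
    (h : ContinuousMap.HomotopyEquiv M M') (x : M) (hx : q (h x) = x)
    (hfin : (q ⁻¹' {x}).Finite)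
    (R : Subgroup (FundamentalGroup M x)) [R.Normal] (hR : IsVirtuallyPolycyclic R)
    (hmax : ∀ K : Subgroup (FundamentalGroup M x), K.Normal → IsVirtuallyPolycyclic K → K ≤ R) :
    ∃ φ : Monoid.End (FundamentalGroup M x ⧸ R), Injective φ ∧
      (MonoidHom.range φ).FiniteIndex ∧
      (∀ g : FundamentalGroup M x, φ (QuotientGroup.mk' R g) =
        QuotientGroup.mk' R (hSharp q h.toFun hx g)) ∧
      (Group.FG (iteratedImage φ) → Group.FG (iteratedImage (hSharp q h.toFun hx)) ∧
        (iteratedImage (hSharp q h.toFun hx)).map (QuotientGroup.mk' R) ≤ iteratedImage φ ∧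
        ((iteratedImage (hSharp q h.toFun hx)).map (QuotientGroup.mk' R)).relIndex
          (iteratedImage φ) ≠ 0) ∧
      (Group.IsFinitelyPresented (iteratedImage φ) →
        Group.IsFinitelyPresented (iteratedImage (hSharp q h.toFun hx))) ∧
      ((∀ H : Subgroup (FundamentalGroup M x ⧸ R), H.FiniteIndex →
        Nonempty (H ≃* FundamentalGroup M x ⧸ R) → H = ⊤) →
        Group.IsFinitelyPresented (iteratedImage (hSharp q h.toFun hx))) := by
  have hinj : Injective (hSharp q h.toFun hx) := Run7.h469.hSharp_injective q hq h hx
  have hfi : (MonoidHom.range (hSharp q h.toFun hx)).index ≠ 0 :=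
    Run7.h469.hSharp_range q hq h hx hfin
  have hRvp : Run7.h469.VP R := vp_iff.1 hR
  have hmax' : ∀ K : Subgroup (FundamentalGroup M x), K.Normal → Run7.h469.VP K → K ≤ R :=
    fun K hK hKv => hmax K hK (vp_iff.2 hKv)
  have hc : Run7.h469.Compat (hSharp q h.toFun hx) R :=
    Run7.h469.rad_compat hinj hfi hRvp hmax'
  have hker : Run7.h469.VP (QuotientGroup.mk' R).ker := by
    rw [QuotientGroup.ker_mk']; exact hRvp
  have hqi := Run7.h469.quo_inj hc
  have hqr := Run7.h469.quo_range hc hfi
  have hsurj := QuotientGroup.mk'_surjective R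
  have hcomm : ∀ g : FundamentalGroup M x, QuotientGroup.mk' R (hSharp q h.toFun hx g) =
      Run7.h469.quo (hSharp q h.toFun hx) R hc (QuotientGroup.mk' R g) := fun g => rfl
  refine ⟨Run7.h469.quo (hSharp q h.toFun hx) R hc, hqi, ⟨hqr⟩, fun g => rfl, ?_, ?_, ?_⟩
  · intro hfg
    rw [iteratedImage_eq] at hfg ⊢
    rw [iteratedImage_eq]
    exact ⟨Run7.h469.itImg_fg _ hsurj hcomm hinj hfi hqi hker hfg,
      Run7.h469.itImg_map_le _ hcomm,
      Run7.h469.main_step _ hsurj hcomm hinj hfi hqi hker hfg⟩
  · intro hfp
    rw [iteratedImage_eq] at hfp ⊢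
    exact Run7.h469.itImg_fp _ hsurj hcomm hinj hfi hqi hker hfp
  · intro hH
    have hs := Run7.h469.surjective_of_cohopf hH hqi hqr
    rw [iteratedImage_eq]
    refine Run7.h469.itImg_fp _ hsurj hcomm hinj hfi hqi hker ?_
    rw [Run7.h469.itImg_eq_top hs]
    have h1 := Run7.h469.fp_quotient (pi1_fp hM x) R
      (Pool.Agent.Helper611.PcGrp.MaxC.fg hRvp.1)
    exact Group.IsFinitelyPresented.equiv Subgroup.topEquiv.symm

end Pool.Agent.Results.MP_52ecc8_gt.PolycyclicRadical
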